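import Mathlib
import Pool.Agent.V7H34.NO.Limit
import Pool.Agent.Results.MP_da270e_gt.NoOppositeSegments

set_option autoImplicit false

/-!
# MP_da270e_gt, Q2: the metrics on `S²` with property (O) are not dense

`RiemannianMetric` is the space of all smooth Riemannian metrics `g` on `S² ⊂ ℝ³`. A metric is given by the
numbers `form x v w = g_x(v, w)`, `x ∈ S²`, `v, w` tangent to `S²` at `x`; it is extended to all vectors
`v, w ∈ ℝ³` (normal vectors are in the kernel) and to all `x ≠ 0` (homogeneous of degree `0`), so that every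
smooth metric on `S²` is represented exactly once. The space carries the `C^∞` topology: uniform
convergence on `S²` of all derivatives.

Theorem. The set of the metrics with property (O) is not dense. More precisely, there is a metric `g₀` such
that all metrics which are `C¹`-close to `g₀` do not have property (O).

Proof. The start file `NoOppositeSegments` gives a conformal metric `g₀ = e^{2φ} g_round` without property
(O). If metrics `g_n` with (O) converge to `g₀` in `C¹`, let `γ₁, γ₂` be opposite `g_n`-segments. By the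
Euler-Lagrange equation (varied by rotations, integrated form) their velocities are uniformly Lipschitz on
`[0,1]`; two opposite segments have a length bounded below (first order expansion at the common point); by
Arzelà and Ascoli a subsequence converges in `C¹`, the limits are segments of `g₀` (any path for `g₀` is a
limit of paths with the end points of the `g_n`-segments), they join two different points and they are
opposite. Opposite segments from `y` to `x` make `y` critical with respect to `x`. Contradiction.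
-/

open scoped RealInnerProductSpace Topology Interval ContDiff Uniformity
open MeasureTheory Filter

namespace Pool.Agent.Results.MP_da270e_gt.PropertyONotDenseH34

open Pool.Agent.V11191.Opp (E3 IsPath)

/-- A smooth Riemannian metric `g` on the unit sphere `S² ⊂ ℝ³`: `form x v w = g_x(v, w)` for `x ∈ S²`
and tangent vectors `v, w ∈ x^⊥`. -/
structure RiemannianMetric : Type where
  /-- the bilinear form at `x` -/
  form : E3 → E3 → E3 → ℝ
  /-- smooth off the origin -/
  smooth : ∀ v w : E3, ContDiffOn ℝ ∞ (fun x => form x v w) {0}ᶜ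
  /-- additive in `v` -/
  add : ∀ x u v w : E3, form x (u + v) w = form x u w + form x v w
  /-- homogeneous in `v` -/
  smul : ∀ (x : E3) (r : ℝ) (v w : E3), form x (r • v) w = r * form x v w
  /-- symmetric -/
  symm : ∀ x v w : E3, form x v w = form x w v
  /-- positive definite on the tangent planes of the sphere -/
  pos : ∀ x v : E3, ‖x‖ = 1 → ⟪x, v⟫ = 0 → v ≠ 0 → 0 < form x v v
  /-- the normal direction is in the kernel -/
  radial : ∀ x v : E3, form x x v = 0
  /-- homogeneous of degree `0` in `x` -/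
  homog : ∀ (x : E3) (r : ℝ), 0 < r → ∀ v w : E3, form (r • x) v w = form x v w
  /-- normalisation at the origin -/
  zero : ∀ v w : E3, form 0 v w = 0

namespace RiemannianMetric

variable (g : RiemannianMetric)

/-- the derivative of order `k` of `x ↦ g_x(v, w)` at a point `x` of the sphere, in the directions
`m 0, ..., m (k - 1)` -/
noncomputable def jet (k : ℕ) (m : Fin k → E3) (v w : E3) (x : Metric.sphere (0 : E3) 1) : ℝ :=
  iteratedFDeriv ℝ k (fun z => g.form z v w) (x : E3) m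

/-- the `C^∞` topology: uniform convergence on `S²` of the derivatives of all orders -/
noncomputable instance smoothTopology : TopologicalSpace RiemannianMetric :=
  TopologicalSpace.induced
    (fun g (k : ℕ) (m : Fin k → E3) (v w : E3) => UniformFun.ofFun (g.jet k m v w)) inferInstance

/-- length of a path -/
noncomputable def len (c : ℝ → E3) : ℝ :=
  ∫ t in (0 : ℝ)..1, Real.sqrt (g.form (c t) (deriv c t) (deriv c t))

/-- intrinsic distance: the infimum of the lengths of the `C¹` paths on the sphere from `p` to `q` -/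
noncomputable def rho (p q : E3) : ℝ :=
  sInf {L | ∃ c, IsPath c p q ∧ L = g.len c}

/-- `c` is a segment from `p` to `q`, i.e. a shortest path, parametrised on `[0,1]` proportionally to arc
length: its speed is constant and equal to the distance. -/
structure IsSegment (c : ℝ → E3) (p q : E3) : Prop where
  path : IsPath c p q
  speed : ∀ t ∈ Set.Icc (0 : ℝ) 1, Real.sqrt (g.form (c t) (deriv c t) (deriv c t)) = g.rho p q

/-- the angle of two tangent vectors at `y` -/
noncomputable def angle (y u v : E3) : ℝ :=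
  Real.arccos (g.form y u v / (Real.sqrt (g.form y u u) * Real.sqrt (g.form y v v)))

/-- `y` is critical with respect to `x`: for every tangent direction `τ` at `y` some segment from `y` to
`x` has at `y` a tangent direction making an angle at most `π/2` with `τ`. -/
def IsCritical (x y : E3) : Prop :=
  ∀ τ : E3, ⟪y, τ⟫ = 0 → τ ≠ 0 →
    ∃ c, g.IsSegment c y x ∧ g.angle y (deriv c 0) τ ≤ Real.pi / 2

/-- Property (O): there are points `x ≠ y`, `y` critical with respect to `x`, and two segments from `y`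
to `x` with opposite tangent directions at `y`. -/
def PropertyO : Prop :=
  ∃ x ∈ Metric.sphere (0 : E3) 1, ∃ y ∈ Metric.sphere (0 : E3) 1, x ≠ y ∧ g.IsCritical x y ∧
    ∃ c₁ c₂, g.IsSegment c₁ y x ∧ g.IsSegment c₂ y x ∧
      g.angle y (deriv c₁ 0) (deriv c₂ 0) = Real.pi

/-- `g` and `g₀` differ by less than `δ` in `C¹`: on the sphere the differences of the values and of the
first derivatives are less than `δ` (at vectors of norm at most `1`). -/
def IsC1Close (g₀ : RiemannianMetric) (δ : ℝ) : Prop :=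
  ∀ k ≤ 1, ∀ (m : Fin k → E3) (v w : E3), (∀ i, ‖m i‖ ≤ 1) → ‖v‖ ≤ 1 → ‖w‖ ≤ 1 →
    ∀ x : Metric.sphere (0 : E3) 1, |g.jet k m v w x - g₀.jet k m v w x| < δ

end RiemannianMetric

/-! ### The field of operators -/

open Pool.Agent.V7H34.NO (chi chi_one cut_smooth path_norm path_tangent Opposite Bd)

/-- the standard basis -/
noncomputable def bv (i : Fin 3) : E3 := EuclideanSpace.single i 1

theorem bv_norm (i : Fin 3) : ‖bv i‖ = 1 := by simp [bv]

theorem bv_inner (i : Fin 3) (v : E3) : ⟪bv i, v⟫ = v i := by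
  simp [bv, EuclideanSpace.inner_single_left]

theorem expand (v : E3) : v = v 0 • bv 0 + v 1 • bv 1 + v 2 • bv 2 := by
  ext i
  fin_cases i <;> simp [bv]

/-- elementary operators -/
noncomputable def El (i j : Fin 3) : E3 →L[ℝ] E3 := (innerSL ℝ (bv j)).smulRight (bv i)

theorem El_apply (i j : Fin 3) (v : E3) : El i j v = v j • bv i := by
  simp [El, bv_inner]

theorem El_norm (i j : Fin 3) : ‖El i j‖ ≤ 1 := by
  refine ContinuousLinearMap.opNorm_le_bound _ zero_le_one fun v => ?_
  rw [El_apply, norm_smul, bv_norm, mul_one, one_mul]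
  exact PiLp.norm_apply_le v j

theorem sub_smul_El (a b : ℝ) (i j : Fin 3) : a • El i j - b • El i j = (a - b) • El i j := by
  refine ContinuousLinearMap.ext fun v => ?_
  rw [sub_apply, smul_apply, smul_apply, smul_apply]
  exact (sub_smul a b (El i j v)).symm

/-- the operator `S(x)` with `g_x(v, w) = ⟪S(x) v, w⟫` -/
noncomputable def op (g : RiemannianMetric) (x : E3) : E3 →L[ℝ] E3 :=
  ∑ i : Fin 3, ∑ j : Fin 3, g.form x (bv j) (bv i) • El i j

theorem form_expand (g : RiemannianMetric) (x v w : E3) :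
    g.form x v w = ∑ i : Fin 3, ∑ j : Fin 3, g.form x (bv j) (bv i) * v j * w i := by
  have h1 : ∀ u z : E3, g.form x u z = u 0 * g.form x (bv 0) z + u 1 * g.form x (bv 1) z +
      u 2 * g.form x (bv 2) z := by
    intro u z
    conv_lhs => rw [expand u, g.add, g.add, g.smul, g.smul, g.smul]
  rw [h1 v w, g.symm x (bv 0) w, g.symm x (bv 1) w, g.symm x (bv 2) w, h1 w (bv 0), h1 w (bv 1),
    h1 w (bv 2)]
  simp only [Fin.sum_univ_three]
  rw [g.symm x (bv 0) (bv 1), g.symm x (bv 0) (bv 2), g.symm x (bv 1) (bv 2)]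
  ring

theorem form_eq (g : RiemannianMetric) (x v w : E3) : g.form x v w = ⟪op g x v, w⟫ := by
  rw [form_expand, op]
  simp only [sum_apply, smul_apply, El_apply, sum_inner, inner_smul_left, bv_inner,
    RCLike.conj_to_real]
  refine Finset.sum_congr rfl fun i _ => Finset.sum_congr rfl fun j _ => ?_
  ring

theorem op_smooth (g : RiemannianMetric) : ContDiffOn ℝ ∞ (op g) {0}ᶜ := by
  unfold op
  exact ContDiffOn.sum fun i _ => ContDiffOn.sum fun j _ =>
    (g.smooth (bv j) (bv i)).smul contDiffOn_const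

theorem form_diff (g : RiemannianMetric) (v w : E3) {x : E3} (hx : x ≠ 0) :
    HasFDerivAt (fun z => g.form z v w) (fderiv ℝ (fun z => g.form z v w) x) x :=
  (((g.smooth v w).contDiffAt (isOpen_compl_singleton.mem_nhds hx)).differentiableAt
    (by simp)).hasFDerivAt

theorem op_fderiv (g : RiemannianMetric) {x : E3} (hx : x ≠ 0) (u : E3) :
    fderiv ℝ (op g) x u = ∑ i : Fin 3, ∑ j : Fin 3,
      (fderiv ℝ (fun z => g.form z (bv j) (bv i)) x u) • El i j := by
  have h : HasFDerivAt (op g) (∑ i : Fin 3, ∑ j : Fin 3,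
      (fderiv ℝ (fun z => g.form z (bv j) (bv i)) x).smulRight (El i j)) x := by
    unfold op
    exact HasFDerivAt.fun_sum fun i _ => HasFDerivAt.fun_sum fun j _ =>
      (form_diff g (bv j) (bv i) hx).smul_const (El i j)
  rw [h.fderiv]
  simp [sum_apply]

/-- closeness of the coefficients -/
structure Close (g g₀ : RiemannianMetric) (δ : ℝ) : Prop where
  val : ∀ x : E3, ‖x‖ = 1 → ∀ i j : Fin 3,
    |g.form x (bv j) (bv i) - g₀.form x (bv j) (bv i)| ≤ δ
  der : ∀ x : E3, ‖x‖ = 1 → ∀ i j l : Fin 3,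
    |fderiv ℝ (fun z => g.form z (bv j) (bv i)) x (bv l) -
      fderiv ℝ (fun z => g₀.form z (bv j) (bv i)) x (bv l)| ≤ δ

theorem ne_zero_of_norm {x : E3} (hx : ‖x‖ = 1) : x ≠ 0 := by
  intro h
  rw [h, norm_zero] at hx
  exact zero_ne_one hx

theorem op_close {g g₀ : RiemannianMetric} {δ : ℝ} (h : Close g g₀ δ) {x : E3} (hx : ‖x‖ = 1) :
    ‖op g x - op g₀ x‖ ≤ 27 * δ := by
  have hδ : 0 ≤ δ := (abs_nonneg _).trans (h.val x hx 0 0)
  have e : op g x - op g₀ x = ∑ i : Fin 3, ∑ j : Fin 3,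
      (g.form x (bv j) (bv i) - g₀.form x (bv j) (bv i)) • El i j := by
    simp only [op, ← sub_smul_El, Finset.sum_sub_distrib]
  rw [e]
  have b : ∀ i j : Fin 3, ‖(g.form x (bv j) (bv i) - g₀.form x (bv j) (bv i)) • El i j‖ ≤ δ := by
    intro i j
    rw [norm_smul, Real.norm_eq_abs]
    calc _ ≤ δ * 1 := mul_le_mul (h.val x hx i j) (El_norm i j) (norm_nonneg _) hδ
      _ = δ := mul_one δ
  have b2 : ‖∑ i : Fin 3, ∑ j : Fin 3,
      (g.form x (bv j) (bv i) - g₀.form x (bv j) (bv i)) • El i j‖ ≤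
      ∑ i : Fin 3, ∑ j : Fin 3, δ :=
    (norm_sum_le _ _).trans (Finset.sum_le_sum fun i _ => (norm_sum_le _ _).trans
      (Finset.sum_le_sum fun j _ => b i j))
  refine b2.trans ?_
  simp
  linarith

theorem op_close' {g g₀ : RiemannianMetric} {δ : ℝ} (h : Close g g₀ δ) {x : E3} (hx : ‖x‖ = 1) :
    ‖fderiv ℝ (op g) x - fderiv ℝ (op g₀) x‖ ≤ 27 * δ := by
  have hδ : 0 ≤ δ := (abs_nonneg _).trans (h.val x hx 0 0)
  have hx0 := ne_zero_of_norm hx
  refine ContinuousLinearMap.opNorm_le_bound _ (by positivity) fun u => ?_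
  rw [sub_apply, op_fderiv g hx0, op_fderiv g₀ hx0, ← Finset.sum_sub_distrib]
  have b : ∀ i j : Fin 3, ‖(fderiv ℝ (fun z => g.form z (bv j) (bv i)) x u) • El i j -
      (fderiv ℝ (fun z => g₀.form z (bv j) (bv i)) x u) • El i j‖ ≤ 3 * δ * ‖u‖ := by
    intro i j
    rw [sub_smul_El, norm_smul, Real.norm_eq_abs]
    have b1 : |fderiv ℝ (fun z => g.form z (bv j) (bv i)) x u -
        fderiv ℝ (fun z => g₀.form z (bv j) (bv i)) x u| ≤ 3 * δ * ‖u‖ := by
      set A := fderiv ℝ (fun z => g.form z (bv j) (bv i)) x with hA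
      set B := fderiv ℝ (fun z => g₀.form z (bv j) (bv i)) x with hB
      have e : A u - B u = u 0 * (A (bv 0) - B (bv 0)) + u 1 * (A (bv 1) - B (bv 1)) +
          u 2 * (A (bv 2) - B (bv 2)) := by
        conv_lhs => rw [expand u]
        simp only [map_add, map_smul, smul_eq_mul]
        ring
      rw [e]
      have c : ∀ l : Fin 3, |u l * (A (bv l) - B (bv l))| ≤ ‖u‖ * δ := by
        intro l
        rw [abs_mul]
        exact mul_le_mul (PiLp.norm_apply_le u l) (h.der x hx i j l) (abs_nonneg _)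
          (norm_nonneg _)
      have c0 := c 0
      have c1 := c 1
      have c2 := c 2
      refine (abs_add_le _ _).trans ?_
      have := abs_add_le (u 0 * (A (bv 0) - B (bv 0))) (u 1 * (A (bv 1) - B (bv 1)))
      linarith
    calc _ ≤ 3 * δ * ‖u‖ * 1 := mul_le_mul b1 (El_norm i j) (norm_nonneg _) (by positivity)
      _ = 3 * δ * ‖u‖ := mul_one _
  have b2 : ‖∑ i : Fin 3, ((∑ j : Fin 3, (fderiv ℝ (fun z => g.form z (bv j) (bv i)) x u) • El i j) -
      ∑ j : Fin 3, (fderiv ℝ (fun z => g₀.form z (bv j) (bv i)) x u) • El i j)‖ ≤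
      ∑ i : Fin 3, ∑ j : Fin 3, 3 * δ * ‖u‖ := by
    refine (norm_sum_le _ _).trans (Finset.sum_le_sum fun i _ => ?_)
    rw [← Finset.sum_sub_distrib]
    exact (norm_sum_le _ _).trans (Finset.sum_le_sum fun j _ => b i j)
  refine b2.trans (le_of_eq ?_)
  simp
  ring

/-! ### Passing between fields of operators which agree on the sphere -/

theorem len_congr {H H' : E3 → E3 →L[ℝ] E3} (h : ∀ x : E3, ‖x‖ = 1 → H x = H' x) {c : ℝ → E3}
    {p q : E3} (hc : IsPath c p q) : Pool.Agent.V7H34.NO.len H c = Pool.Agent.V7H34.NO.len H' c := by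
  unfold Pool.Agent.V7H34.NO.len
  refine intervalIntegral.integral_congr fun t ht => ?_
  rw [Set.uIcc_of_le (by norm_num)] at ht
  show Real.sqrt ⟪H (c t) (deriv c t), deriv c t⟫ = Real.sqrt ⟪H' (c t) (deriv c t), deriv c t⟫
  rw [h _ (path_norm hc ht)]

theorem rho_congr {H H' : E3 → E3 →L[ℝ] E3} (h : ∀ x : E3, ‖x‖ = 1 → H x = H' x) (p q : E3) :
    Pool.Agent.V7H34.NO.rho H p q = Pool.Agent.V7H34.NO.rho H' p q := by
  unfold Pool.Agent.V7H34.NO.rho
  congr 1
  ext L
  constructor
  · rintro ⟨c, hc, rfl⟩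
    exact ⟨c, hc, len_congr h hc⟩
  · rintro ⟨c, hc, rfl⟩
    exact ⟨c, hc, (len_congr h hc).symm⟩

theorem seg_congr {H H' : E3 → E3 →L[ℝ] E3} (h : ∀ x : E3, ‖x‖ = 1 → H x = H' x) {c : ℝ → E3}
    {p q : E3} (hc : Pool.Agent.V7H34.NO.IsSegment H c p q) :
    Pool.Agent.V7H34.NO.IsSegment H' c p q :=
  ⟨hc.path, fun t ht => by rw [← h _ (path_norm hc.path ht), hc.speed t ht, rho_congr h]⟩

theorem len_eq (g : RiemannianMetric) (c : ℝ → E3) :
    g.len c = Pool.Agent.V7H34.NO.len (op g) c := by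
  unfold RiemannianMetric.len Pool.Agent.V7H34.NO.len
  simp only [form_eq]

theorem rho_eq (g : RiemannianMetric) (p q : E3) :
    g.rho p q = Pool.Agent.V7H34.NO.rho (op g) p q := by
  unfold RiemannianMetric.rho Pool.Agent.V7H34.NO.rho
  simp only [len_eq]

theorem seg_to (g : RiemannianMetric) {c : ℝ → E3} {p q : E3} (hc : g.IsSegment c p q) :
    Pool.Agent.V7H34.NO.IsSegment (op g) c p q :=
  ⟨hc.path, fun t ht => by rw [← form_eq, hc.speed t ht, rho_eq]⟩

/-- opposite directions -/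
theorem opp_dir (g : RiemannianMetric) {x y : E3} (hy : ‖y‖ = 1) {c₁ c₂ : ℝ → E3}
    (h₁ : g.IsSegment c₁ y x) (h₂ : g.IsSegment c₂ y x)
    (h : g.angle y (deriv c₁ 0) (deriv c₂ 0) = Real.pi) :
    deriv c₁ 0 ≠ 0 ∧ deriv c₂ 0 = -deriv c₁ 0 := by
  have h0 : (0 : ℝ) ∈ Set.Icc (0 : ℝ) 1 := ⟨le_rfl, by norm_num⟩
  have s1 := h₁.speed 0 h0
  have s2 := h₂.speed 0 h0
  rw [h₁.path.start] at s1
  rw [h₂.path.start] at s2
  have t1 := path_tangent h₁.path h0
  have t2 := path_tangent h₂.path h0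
  rw [h₁.path.start] at t1
  rw [h₂.path.start] at t2
  set u := deriv c₁ 0 with hu
  set v := deriv c₂ 0 with hv
  set d := g.rho y x with hd
  unfold RiemannianMetric.angle at h
  rw [s1, s2, Real.arccos_eq_pi] at h
  have hd0 : d ≠ 0 := by
    intro h1
    rw [h1] at h
    norm_num at h
  have hdnn : 0 ≤ d := by
    rw [← s1]
    exact Real.sqrt_nonneg _
  have hdd : 0 < d * d := by positivity
  have h2 : g.form y u v ≤ -(d * d) := by
    rw [div_le_iff₀ hdd] at h
    linarith
  have z1 : ∀ w : E3, g.form y 0 w = 0 := by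
    intro w
    have := g.smul y 0 0 w
    rw [zero_smul, zero_mul] at this
    exact this
  have nn : ∀ w : E3, ⟪y, w⟫ = 0 → 0 ≤ g.form y w w := by
    intro w hw
    by_cases h3 : w = 0
    · rw [h3, z1]
    · exact (g.pos y w hy hw h3).le
  have q1 : g.form y u u = d * d := by
    rw [← s1, Real.mul_self_sqrt (nn u t1)]
  have q2 : g.form y v v = d * d := by
    rw [← s2, Real.mul_self_sqrt (nn v t2)]
  have q3 : g.form y v u = g.form y u v := g.symm _ _ _
  refine ⟨?_, ?_⟩
  · intro h3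
    rw [h3, z1] at q1
    exact hdd.ne q1
  · have t3 : ⟪y, u + v⟫ = 0 := by rw [inner_add_right, t1, t2, add_zero]
    by_contra hne
    have h4 : u + v ≠ 0 := fun h5 => hne (eq_neg_of_add_eq_zero_right h5)
    have h6 := g.pos y (u + v) hy t3 h4
    rw [g.add, g.symm y u (u + v), g.symm y v (u + v), g.add, g.add, q1, q2, q3] at h6
    linarith

/-- cutting off does not change anything on the sphere -/
theorem cut_eq (H : E3 → E3 →L[ℝ] E3) {x : E3} (hx : ‖x‖ = 1) : chi x • H x = H x := by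
  rw [chi_one (by rw [hx]; norm_num), one_smul]

theorem cut_fderiv (H : E3 → E3 →L[ℝ] E3) {x : E3} (hx : ‖x‖ = 1) :
    fderiv ℝ (fun z => chi z • H z) x = fderiv ℝ H x := by
  refine Filter.EventuallyEq.fderiv_eq ?_
  have h1 : Continuous fun z : E3 => ‖z‖ ^ 2 := by fun_prop
  have h2 : ∀ᶠ z in 𝓝 x, 1 / 2 < ‖z‖ ^ 2 := by
    refine h1.continuousAt.eventually (lt_mem_nhds ?_)
    simp only [hx]
    norm_num
  filter_upwards [h2] with z hz
  rw [chi_one hz.le, one_smul]

theorem opposite_of_propertyO (g : RiemannianMetric) (h : g.PropertyO) :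
    Opposite fun z => chi z • op g z := by
  obtain ⟨x, hx, y, hy, hxy, -, c₁, c₂, h₁, h₂, hang⟩ := h
  rw [mem_sphere_zero_iff_norm] at hx hy
  obtain ⟨hne, hopp⟩ := opp_dir g hy h₁ h₂ hang
  have hc : ∀ x : E3, ‖x‖ = 1 → op g x = (fun z => chi z • op g z) x := fun x hx =>
    (cut_eq (op g) hx).symm
  exact ⟨x, y, hx, hy, hxy, c₁, c₂, seg_congr hc (seg_to g h₁), seg_congr hc (seg_to g h₂), hne,
    hopp⟩

/-! ### The conformal metric -/

/-- the metric `e^{2φ} g_round` -/
noncomputable def conf (φ : E3 → ℝ) (hφ : ContDiff ℝ ∞ φ) : RiemannianMetric where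
  form := fun x v w => if x = 0 then 0 else
    Real.exp (2 * φ (‖x‖⁻¹ • x)) * (⟪v, w⟫ - (‖x‖ ^ 2)⁻¹ * (⟪x, v⟫ * ⟪x, w⟫))
  smooth := by
    intro v w
    have h1 : ContDiffOn ℝ ∞ (fun x : E3 => Real.exp (2 * φ (‖x‖⁻¹ • x)) *
        (⟪v, w⟫ - (‖x‖ ^ 2)⁻¹ * (⟪x, v⟫ * ⟪x, w⟫))) {0}ᶜ := by
      intro x hx
      have hx' : x ≠ 0 := hx
      have n1 : ContDiffAt ℝ ∞ (fun z : E3 => ‖z‖) x := contDiffAt_norm ℝ hx'
      have n2 : ContDiffAt ℝ ∞ (fun z : E3 => ‖z‖⁻¹ • z) x :=
        (n1.inv (norm_ne_zero_iff.2 hx')).smul contDiffAt_id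
      have n3 : ContDiffAt ℝ ∞ (fun z : E3 => Real.exp (2 * φ (‖z‖⁻¹ • z))) x :=
        (contDiffAt_const.mul (hφ.contDiffAt.comp x n2)).exp
      have n4 : ContDiffAt ℝ ∞ (fun z : E3 => (‖z‖ ^ 2)⁻¹) x :=
        (n1.pow 2).inv (pow_ne_zero 2 (norm_ne_zero_iff.2 hx'))
      have n5 : ∀ u : E3, ContDiffAt ℝ ∞ (fun z : E3 => ⟪z, u⟫) x := fun u =>
        contDiffAt_id.inner ℝ contDiffAt_const
      exact (n3.mul (contDiffAt_const.sub (n4.mul ((n5 v).mul (n5 w))))).contDiffWithinAt
    refine h1.congr fun x hx => ?_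
    have hx' : x ≠ 0 := hx
    rw [if_neg hx']
  add := by
    intro x u v w
    split_ifs with h
    · simp
    · rw [inner_add_left, inner_add_right]
      ring
  smul := by
    intro x r v w
    split_ifs with h
    · simp
    · rw [inner_smul_left, inner_smul_right, RCLike.conj_to_real]
      ring
  symm := by
    intro x v w
    rw [real_inner_comm v w, mul_comm ⟪x, v⟫]
  pos := by
    intro x v hx hv hv0
    rw [if_neg (ne_zero_of_norm hx), hv, zero_mul, mul_zero, sub_zero, real_inner_self_eq_norm_sq]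
    have : 0 < ‖v‖ := norm_pos_iff.2 hv0
    positivity
  radial := by
    intro x v
    split_ifs with h
    · rfl
    · have hn : ‖x‖ ^ 2 ≠ 0 := pow_ne_zero 2 (norm_ne_zero_iff.2 h)
      rw [real_inner_self_eq_norm_sq, ← mul_assoc, inv_mul_cancel₀ hn, one_mul, sub_self, mul_zero]
  homog := by
    intro x r hr v w
    by_cases h : x = 0
    · rw [h, smul_zero]
    · have hrx : r • x ≠ 0 := smul_ne_zero hr.ne' h
      have hn : ‖x‖ ≠ 0 := norm_ne_zero_iff.2 h
      rw [if_neg hrx, if_neg h, norm_smul, Real.norm_eq_abs, abs_of_pos hr, inner_smul_left,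
        inner_smul_left, RCLike.conj_to_real]
      have e1 : (r * ‖x‖)⁻¹ • r • x = ‖x‖⁻¹ • x := by
        rw [smul_smul]
        congr 1
        field_simp
      rw [e1]
      field_simp
  zero := fun v w => if_pos rfl

theorem conf_apply (φ : E3 → ℝ) (hφ : ContDiff ℝ ∞ φ) {x v : E3} (hx : ‖x‖ = 1)
    (hv : ⟪x, v⟫ = 0) : (conf φ hφ).form x v v = (Real.exp (φ x) * ‖v‖) ^ 2 := by
  show (if x = 0 then 0 else
    Real.exp (2 * φ (‖x‖⁻¹ • x)) * (⟪v, v⟫ - (‖x‖ ^ 2)⁻¹ * (⟪x, v⟫ * ⟪x, v⟫))) = _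
  rw [if_neg (ne_zero_of_norm hx), hv, zero_mul, mul_zero, sub_zero, real_inner_self_eq_norm_sq,
    hx, inv_one, one_smul, mul_pow, ← Real.exp_nat_mul]
  norm_num

theorem conf_len (φ : E3 → ℝ) (hφ : ContDiff ℝ ∞ φ) {c : ℝ → E3} {p q : E3} (hc : IsPath c p q)
    {t : ℝ} (ht : t ∈ Set.Icc (0 : ℝ) 1) :
    Real.sqrt ⟪op (conf φ hφ) (c t) (deriv c t), deriv c t⟫ =
      Real.exp (φ (c t)) * ‖deriv c t‖ := by
  rw [← form_eq, conf_apply φ hφ (path_norm hc ht) (path_tangent hc ht),
    Real.sqrt_sq (by positivity)]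

theorem conf_rho (φ : E3 → ℝ) (hφ : ContDiff ℝ ∞ φ) (p q : E3) :
    Pool.Agent.V7H34.NO.rho (op (conf φ hφ)) p q = Pool.Agent.V11191.Opp.rho φ p q := by
  have h : ∀ c, IsPath c p q → Pool.Agent.V7H34.NO.len (op (conf φ hφ)) c =
      Pool.Agent.V11191.Opp.len φ c := by
    intro c hc
    unfold Pool.Agent.V7H34.NO.len Pool.Agent.V11191.Opp.len
    refine intervalIntegral.integral_congr fun t ht => ?_
    rw [Set.uIcc_of_le (by norm_num)] at ht
    exact conf_len φ hφ hc ht
  unfold Pool.Agent.V7H34.NO.rho Pool.Agent.V11191.Opp.rho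
  congr 1
  ext L
  constructor
  · rintro ⟨c, hc, rfl⟩
    exact ⟨c, hc, h c hc⟩
  · rintro ⟨c, hc, rfl⟩
    exact ⟨c, hc, (h c hc).symm⟩

theorem propertyO_of_opposite (φ : E3 → ℝ) (hφ : ContDiff ℝ ∞ φ)
    (h : Opposite fun z => chi z • op (conf φ hφ) z) : Pool.Agent.V11191.Opp.PropertyO φ := by
  obtain ⟨x, y, hx, hy, hxy, c₁, c₂, h₁, h₂, hne, hopp⟩ := h
  have hc : ∀ x : E3, ‖x‖ = 1 → (fun z => chi z • op (conf φ hφ) z) x = op (conf φ hφ) x :=
    fun x hx => cut_eq (op (conf φ hφ)) hx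
  have conv : ∀ c, Pool.Agent.V7H34.NO.IsSegment (fun z => chi z • op (conf φ hφ) z) c y x →
      Pool.Agent.V11191.Opp.IsSegment φ c y x := by
    intro c h1
    have h2 := seg_congr hc h1
    refine ⟨h2.path, fun t ht => ?_⟩
    rw [← conf_len φ hφ h2.path ht, h2.speed t ht, conf_rho]
  have k1 := conv c₁ h₁
  have k2 := conv c₂ h₂
  refine ⟨x, by rw [mem_sphere_zero_iff_norm]; exact hx, y,
    by rw [mem_sphere_zero_iff_norm]; exact hy, hxy, ?_, c₁, c₂, k1, k2, ?_⟩
  · intro τ _ _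
    by_cases hs : 0 ≤ ⟪deriv c₁ 0, τ⟫
    · refine ⟨c₁, k1, ?_⟩
      unfold InnerProductGeometry.angle
      rw [Real.arccos_le_pi_div_two]
      positivity
    · refine ⟨c₂, k2, ?_⟩
      unfold InnerProductGeometry.angle
      rw [Real.arccos_le_pi_div_two, hopp, inner_neg_left]
      have : 0 ≤ -⟪deriv c₁ 0, τ⟫ := by linarith [not_le.1 hs]
      positivity
  · rw [hopp]
    exact InnerProductGeometry.angle_self_neg_of_nonzero hne

/-! ### The main theorem -/

/-- all metrics which are `C¹`-close to a certain conformal metric do not have property (O) -/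
theorem open_set : ∃ (g₀ : RiemannianMetric) (δ : ℝ), 0 < δ ∧ ∀ g : RiemannianMetric,
    Close g g₀ δ → ¬ g.PropertyO := by
  obtain ⟨φ, hφ, hno⟩ := Pool.Agent.Results.MP_da270e_gt.NoOppositeSegments.result
  refine ⟨conf φ hφ, ?_⟩
  by_contra hcon
  push Not at hcon
  set g₀ := conf φ hφ with hg₀
  set H : E3 → E3 →L[ℝ] E3 := fun z => chi z • op g₀ z with hH
  have hHs : ContDiff ℝ ∞ H := cut_smooth (op_smooth g₀)
  have hH1 : ContDiff ℝ 1 H := hHs.of_le (by simp)
  have hS : IsCompact (Metric.sphere (0 : E3) 1) := isCompact_sphere _ _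
  obtain ⟨C1, hC1⟩ := hS.exists_bound_of_continuousOn hH1.continuous.continuousOn
  obtain ⟨C2, hC2⟩ := hS.exists_bound_of_continuousOn
    (hH1.continuous_fderiv one_ne_zero).continuousOn
  obtain ⟨C3, hC3⟩ := hS.exists_bound_of_continuousOn hφ.continuous.continuousOn
  have hmem : ∀ x : E3, ‖x‖ = 1 → x ∈ Metric.sphere (0 : E3) 1 := fun x hx => by
    rw [mem_sphere_zero_iff_norm]; exact hx
  set κ₀ := Real.exp (-C3) ^ 2 with hκ₀
  have hκ₀pos : 0 < κ₀ := by positivity
  set K₀ := max C1 C2 with hK₀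
  have low₀ : ∀ x v : E3, ‖x‖ = 1 → ⟪x, v⟫ = 0 → κ₀ * ‖v‖ ^ 2 ≤ ⟪op g₀ x v, v⟫ := by
    intro x v hx hv
    rw [← form_eq, hg₀, conf_apply φ hφ hx hv, mul_pow]
    refine mul_le_mul_of_nonneg_right ?_ (sq_nonneg _)
    refine pow_le_pow_left₀ (Real.exp_pos _).le (Real.exp_le_exp.2 ?_) 2
    have := hC3 x (hmem x hx)
    rw [Real.norm_eq_abs] at this
    linarith [(abs_le.1 this).1]
  have symm_cut : ∀ (g : RiemannianMetric) (x v w : E3),
      ⟪(chi x • op g x) v, w⟫ = ⟪v, (chi x • op g x) w⟫ := by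
    intro g x v w
    rw [smul_apply, smul_apply, inner_smul_left, inner_smul_right, RCLike.conj_to_real,
      ← form_eq, g.symm, form_eq, real_inner_comm]
  have hBd₀ : Bd H κ₀ K₀ := by
    refine ⟨hH1, fun x v w => symm_cut g₀ x v w, hκ₀pos, fun x v hx hv => ?_, fun x hx => ?_,
      fun x hx => ?_⟩
    · simp only [hH]
      rw [cut_eq (op g₀) hx]
      exact low₀ x v hx hv
    · exact (hC1 x (hmem x hx)).trans (le_max_left _ _)
    · exact (hC2 x (hmem x hx)).trans (le_max_right _ _)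
  -- the sequence
  set ε : ℕ → ℝ := fun n => min (min (κ₀ / 2) 1) (1 / ((n : ℝ) + 1)) with hε
  have hεpos : ∀ n, 0 < ε n := fun n => by
    have : 0 < 1 / ((n : ℝ) + 1) := by positivity
    exact lt_min (lt_min (by positivity) one_pos) this
  have hε0 : Tendsto ε atTop (𝓝 0) :=
    squeeze_zero (fun n => (hεpos n).le) (fun n => min_le_right _ _)
      tendsto_one_div_add_atTop_nhds_zero_nat
  choose gn hgn hgO using fun n => hcon (ε n / 27) (div_pos (hεpos n) (by norm_num))
  set Hn : ℕ → E3 → E3 →L[ℝ] E3 := fun n z => chi z • op (gn n) z with hHn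
  have hdiff : ∀ n, ∀ x : E3, ‖x‖ = 1 → ‖Hn n x - H x‖ ≤ ε n := by
    intro n x hx
    simp only [hHn, hH]
    rw [cut_eq _ hx, cut_eq _ hx]
    refine (op_close (hgn n) hx).trans (le_of_eq ?_)
    ring
  have hdiff' : ∀ n, ∀ x : E3, ‖x‖ = 1 → ‖fderiv ℝ (Hn n) x - fderiv ℝ H x‖ ≤ ε n := by
    intro n x hx
    have e1 : fderiv ℝ (Hn n) x = fderiv ℝ (op (gn n)) x := cut_fderiv _ hx
    have e2 : fderiv ℝ H x = fderiv ℝ (op g₀) x := cut_fderiv _ hx
    rw [e1, e2]
    refine (op_close' (hgn n) hx).trans (le_of_eq ?_)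
    ring
  have hε1 : ∀ n, ε n ≤ 1 := fun n => (min_le_left _ _).trans (min_le_right _ _)
  have hε2 : ∀ n, ε n ≤ κ₀ / 2 := fun n => (min_le_left _ _).trans (min_le_left _ _)
  have hBdn : ∀ n, Bd (Hn n) (κ₀ / 2) (K₀ + 1) := by
    intro n
    refine ⟨(cut_smooth (op_smooth (gn n))).of_le (by simp), fun x v w => symm_cut (gn n) x v w,
      by positivity, fun x v hx hv => ?_, fun x hx => ?_, fun x hx => ?_⟩
    · have h1 := hBd₀.low x v hx hv
      have h2 : ⟪Hn n x v, v⟫ = ⟪H x v, v⟫ + ⟪(Hn n x - H x) v, v⟫ := by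
        rw [sub_apply, inner_sub_left]
        ring
      have h3 : |⟪(Hn n x - H x) v, v⟫| ≤ κ₀ / 2 * ‖v‖ ^ 2 := by
        refine (abs_real_inner_le_norm _ _).trans ?_
        have h4 := (Hn n x - H x).le_opNorm v
        have h5 : ‖(Hn n x - H x) v‖ ≤ κ₀ / 2 * ‖v‖ :=
          h4.trans (mul_le_mul_of_nonneg_right ((hdiff n x hx).trans (hε2 n)) (norm_nonneg _))
        calc _ ≤ κ₀ / 2 * ‖v‖ * ‖v‖ := mul_le_mul_of_nonneg_right h5 (norm_nonneg _)
          _ = κ₀ / 2 * ‖v‖ ^ 2 := by ring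
      rw [h2]
      have h6 := (abs_le.1 h3).1
      linarith
    · have h1 : ‖Hn n x‖ ≤ ‖H x‖ + ‖Hn n x - H x‖ := by
        have : Hn n x = H x + (Hn n x - H x) := by abel
        calc ‖Hn n x‖ = ‖H x + (Hn n x - H x)‖ := by rw [← this]
          _ ≤ _ := norm_add_le _ _
      have h2 := hBd₀.up x hx
      have h3 := (hdiff n x hx).trans (hε1 n)
      linarith
    · have h1 : ‖fderiv ℝ (Hn n) x‖ ≤ ‖fderiv ℝ H x‖ + ‖fderiv ℝ (Hn n) x - fderiv ℝ H x‖ := by
        refine ContinuousLinearMap.opNorm_le_bound _ (by positivity) fun v => ?_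
        have e1 : fderiv ℝ (Hn n) x v = fderiv ℝ H x v + (fderiv ℝ (Hn n) x - fderiv ℝ H x) v := by
          rw [sub_apply]
          abel
        rw [e1, add_mul]
        exact (norm_add_le _ _).trans (add_le_add (ContinuousLinearMap.le_opNorm _ _)
          (ContinuousLinearMap.le_opNorm _ _))
      have h2 := hBd₀.dup x hx
      have h3 := (hdiff' n x hx).trans (hε1 n)
      linarith
  exact hno (propertyO_of_opposite φ hφ (Pool.Agent.V7H34.NO.limit hBd₀ hBdn hε0 hdiff
    fun n => opposite_of_propertyO (gn n) (hgO n)))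

theorem jet_zero (g : RiemannianMetric) (m : Fin 0 → E3) (v w : E3)
    (x : Metric.sphere (0 : E3) 1) : g.jet 0 m v w x = g.form x v w := by
  unfold RiemannianMetric.jet
  rw [iteratedFDeriv_zero_apply]

theorem jet_one (g : RiemannianMetric) (m : Fin 1 → E3) (v w : E3)
    (x : Metric.sphere (0 : E3) 1) :
    g.jet 1 m v w x = fderiv ℝ (fun z => g.form z v w) x (m 0) := by
  unfold RiemannianMetric.jet
  rw [iteratedFDeriv_one_apply]

theorem close_of_c1 {g g₀ : RiemannianMetric} {δ : ℝ} (h : g.IsC1Close g₀ δ) : Close g g₀ δ := by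
  constructor
  · intro x hx i j
    have h1 := h 0 (by norm_num) (fun _ => 0) (bv j) (bv i) (fun i => by simp) (bv_norm j).le
      (bv_norm i).le ⟨x, by rw [mem_sphere_zero_iff_norm]; exact hx⟩
    rw [jet_zero, jet_zero] at h1
    exact h1.le
  · intro x hx i j l
    have h1 := h 1 le_rfl (fun _ => bv l) (bv j) (bv i) (fun i => (bv_norm l).le) (bv_norm j).le
      (bv_norm i).le ⟨x, by rw [mem_sphere_zero_iff_norm]; exact hx⟩
    rw [jet_one, jet_one] at h1
    exact h1.le

/-- closeness defines a neighbourhood in the `C^∞` topology -/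
theorem ball_mem (g₀ : RiemannianMetric) {δ : ℝ} (hδ : 0 < δ) :
    {g : RiemannianMetric | Close g g₀ δ} ∈ 𝓝 g₀ := by
  set Φ : RiemannianMetric → (k : ℕ) → (Fin k → E3) → E3 → E3 →
    UniformFun (Metric.sphere (0 : E3) 1) ℝ := fun g k m v w => UniformFun.ofFun (g.jet k m v w)
    with hΦ
  have hcont : Continuous Φ := continuous_induced_dom
  have key : ∀ (k : ℕ) (m : Fin k → E3) (v w : E3), ∀ᶠ g in 𝓝 g₀,
      ∀ x : Metric.sphere (0 : E3) 1, dist (g₀.jet k m v w x) (g.jet k m v w x) < δ := by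
    intro k m v w
    have h1 : Continuous fun g => Φ g k m v w :=
      (continuous_apply w).comp ((continuous_apply v).comp ((continuous_apply m).comp
        ((continuous_apply k).comp hcont)))
    have h2 := (UniformFun.hasBasis_nhds (Metric.sphere (0 : E3) 1) ℝ
      (Φ g₀ k m v w)).mem_of_mem (Metric.dist_mem_uniformity hδ)
    exact h1.continuousAt.preimage_mem_nhds h2
  have hval : ∀ᶠ g in 𝓝 g₀, ∀ i j : Fin 3, ∀ x : Metric.sphere (0 : E3) 1,
      dist (g₀.jet 0 (fun _ => 0) (bv j) (bv i) x) (g.jet 0 (fun _ => 0) (bv j) (bv i) x) < δ :=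
    eventually_all.2 fun i => eventually_all.2 fun j => key 0 _ _ _
  have hder : ∀ᶠ g in 𝓝 g₀, ∀ i j l : Fin 3, ∀ x : Metric.sphere (0 : E3) 1,
      dist (g₀.jet 1 (fun _ => bv l) (bv j) (bv i) x) (g.jet 1 (fun _ => bv l) (bv j) (bv i) x) <
        δ :=
    eventually_all.2 fun i => eventually_all.2 fun j => eventually_all.2 fun l => key 1 _ _ _
  filter_upwards [hval, hder] with g h0 h1
  constructor
  · intro x hx i j
    have h2 := h0 i j ⟨x, by rw [mem_sphere_zero_iff_norm]; exact hx⟩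
    rw [jet_zero, jet_zero, Real.dist_eq, abs_sub_comm] at h2
    exact h2.le
  · intro x hx i j l
    have h2 := h1 i j l ⟨x, by rw [mem_sphere_zero_iff_norm]; exact hx⟩
    rw [jet_one, jet_one, Real.dist_eq, abs_sub_comm] at h2
    exact h2.le

/-- Q2: the set of the Riemannian metrics on `S²` with property (O) is not dense in the `C^∞` topology;
more precisely, its complement contains a ball of the `C¹` topology. -/
theorem result : ¬ Dense {g : RiemannianMetric | g.PropertyO} ∧
    ∃ (g₀ : RiemannianMetric) (δ : ℝ), 0 < δ ∧ ∀ g : RiemannianMetric,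
      g.IsC1Close g₀ δ → ¬ g.PropertyO := by
  obtain ⟨g₀, δ, hδ, h⟩ := open_set
  refine ⟨fun hd => ?_, g₀, δ, hδ, fun g hg => h g (close_of_c1 hg)⟩
  obtain ⟨g, hg1, hg2⟩ := (mem_closure_iff_nhds.1 (hd g₀)) _ (ball_mem g₀ hδ)
  exact h g hg1 hg2

end Pool.Agent.Results.MP_da270e_gt.PropertyONotDenseH34
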